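import Pool.Agent.helper25.UC.R11

/-!
# MP_747d65_pr : coexistence forces a strict trap

`UC.InG G s`: `G` is in the class `G_s`.  `UC.Trap G E U σ x`: strict trap.
-/

namespace Pool.Agent.Results.MP_747d65_pr.StrictTrap

open UC

theorem result {V : Type} [Fintype V] [DecidableEq V] (G : SimpleGraph V) [DecidableRel G.Adj]
    (hG : G.Connected) (s : ℕ) (h : ¬ InG G s) :
    (∃ (E : ℝ) (U : Finset V) (σ : V → Fin s) (x : V → ℝ), Trap G E U σ x) ∧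
    (∃ v a a' b b' c c', G.Adj v a ∧ G.Adj v b ∧ G.Adj v c ∧ G.Adj a a' ∧ G.Adj b b' ∧
      G.Adj c c' ∧ a' ≠ v ∧ b' ≠ v ∧ c' ≠ v ∧
      (∀ p, (p = a ∨ p = a') → ∀ q, (q = b ∨ q = b') → p ≠ q ∧ ¬ G.Adj p q) ∧
      (∀ p, (p = a ∨ p = a') → ∀ q, (q = c ∨ q = c') → p ≠ q ∧ ¬ G.Adj p q) ∧
      (∀ p, (p = b ∨ p = b') → ∀ q, (q = c ∨ q = c') → p ≠ q ∧ ¬ G.Adj p q)) := by
  obtain ⟨E, U, σ, x, hT⟩ := strict_trap_of_not_inG hG h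
  exact ⟨⟨E, U, σ, x, hT⟩, threeLegs_of_trap hG E U σ x hT⟩

end Pool.Agent.Results.MP_747d65_pr.StrictTrap
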