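import Pool.Agent.helper25.UC.R10

/-!
# MP_747d65_pr : complete answer for subcubic graphs and for graphs with at most nine vertices

`UC.InG G s`: `G` is in the class `G_s`.  `UC.Trap G E U σ x`: strict trap.
-/

namespace Pool.Agent.Results.MP_747d65_pr.TrapClassification

open UC

theorem result {V : Type} [Fintype V] [DecidableEq V] (G : SimpleGraph V) [DecidableRel G.Adj]
    (hG : G.Connected)
    (h : (∀ v, (Finset.univ.filter fun u => G.Adj v u).card ≤ 3) ∨ Fintype.card V ≤ 9) (s : ℕ) :
    ¬ InG G s ↔ ∃ (E : ℝ) (U : Finset V) (σ : V → Fin s) (x : V → ℝ), Trap G E U σ x :=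
  not_inG_iff hG h

end Pool.Agent.Results.MP_747d65_pr.TrapClassification
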