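import Pool.Agent.helper25.UC.Final

/-!
# MP_747d65_pr : a sufficient condition for coexistence

`UC.InG G s`: `G` is in the class `G_s`.
-/

namespace Pool.Agent.Results.MP_747d65_pr.TrapSufficient

open UC

theorem result {V : Type} [Fintype V] [DecidableEq V] (G : SimpleGraph V) [DecidableRel G.Adj]
    (hG : G.Connected) (s : ℕ) (U : Finset V) (σ : V → Fin s) (x : V → ℝ) (E : ℝ)
    (hE : 0 < E) (hU : U.Nonempty) (hU' : ∃ v, v ∉ U) (hx : ∀ v ∈ U, 0 < x v)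
    (hx0 : ∀ v, v ∉ U → x v = 0)
    (heig : ∀ v ∈ U, ∑ u, (if G.Adj v u then x u else 0) = E * x v)
    (hsame : ∀ u ∈ U, ∀ v ∈ U, G.Adj u v → σ u = σ v)
    (hstrict : ∀ v, v ∉ U → (∃ u ∈ U, G.Adj v u) → ∀ b : Fin s,
      2 * ∑ u, (if G.Adj v u ∧ σ u = b then x u else 0) < ∑ u, (if G.Adj v u then x u else 0))
    (hspec : ∀ y : V → ℝ, (∀ v, (v ∈ U ∨ ∃ u ∈ U, G.Adj v u) → y v = 0) →
      ∑ u, ∑ v, (if G.Adj u v then y u * y v else 0) ≤ E * ∑ v, y v ^ 2) :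
    ¬ InG G s :=
  not_inG_of_trap hG U σ x E hE hU hU' hx hx0 heig hsame hstrict hspec

end Pool.Agent.Results.MP_747d65_pr.TrapSufficient
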